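import Pool.Agent.X324.SA.Crit

set_option autoImplicit false

/-!
# Nef divisors and log Calabi–Yau fibre spaces on quotients of products

Let `X = (A × F) / G`, where `A` is an abelian variety, `F = ∏ F i` a product of normal projective
`ℚ`-factorial varieties such that `Cl(F)` is free and the direct sum of the `Cl(F i)`, and `G` a finite
group which acts on both factors and permutes the `F i`; let `G i` be the stabiliser of `F i`. Let
`𝓜 = O_X(m (K_X + Δ))` and `𝓛 = O_X(L)`. The problem asks whether `L` is the pullback of an ample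
`ℚ`-divisor by a fibration `g : X → B` such that `K_X + Δ` is the pullback of a `ℚ`-divisor of `B`. This is
so if and only if `𝓛` is semiample and, for some `k`, also `𝓛^k ⊗ 𝓜` and `𝓛^k ⊗ 𝓜⁻¹` are semiample. (If
these sheaves are semiample, then the curves contracted by the fibration given by `𝓛` have degree zero
with respect to `𝓜`, and so the fibration given by `𝓛^k ⊗ 𝓜` factors through that given by `𝓛`.)

The theorem says: if `H^1(X, O_X) = 0` and the statement holds for the classes `K i` on the `F i` and the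
classes of `F i` which are invariant under `G i`, where `K i` is the component of the degree of `𝓜`, then
it holds for `𝓜` and all `𝓛` on `X`. The hypothesis is satisfied if nef classes of `F i` are semiample
(for instance, if the `F i` are Mori dream spaces, or if `F` is a point and `X` a quotient of an
abelian variety).

`Cl`, `Semistable`, `SemiampleF`, `Induces`, `Grp`, `base`, `IsQuotient`, `Sheaf`, `IsClass`, `N1`,
`semiample`, `coneHull` and `nefCone` are defined in `Pool.Agent.X324.CF.Defs`; `Sheaf.pow`,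
`Sheaf.tensor` and `Sheaf.dual` in `Pool.Agent.X324.CF.Shf`; `IsCoxRing`, `IsProduct`, `part`, `real`
and `nefF` in `Pool.Agent.X324.CG.Defs`; `IsOf`, `Permutes` and `InvAt` in
`Pool.Agent.X324.SA.CritDefs`; `HOneZero` in `Pool.Agent.TH735.AQ.Defs`.
-/

namespace Pool.Agent.Results.MP_837b5f_ag.ProductQuotients

open Pool.Agent.X324.CF
open Pool.Agent.X324.CG (IsCoxRing IsProduct part real nefF)
open Pool.Agent.X324.SA (IsOf InvAt Permutes)
open Pool.Agent.TH735.AQ (HOneZero)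

/-- The space `N^1(X)`. (In the absolute case the linear subspace `E` of `V` of the general
definitions is `V` itself, embedded by the identity map.) -/
abbrev NS {V R : Type*} [NormedAddCommGroup V] [NormedSpace ℂ V] [CommRing R] [Algebra ℂ R] {ρ : ℕ}
    (𝒜 : Cl ρ → Submodule ℂ R) (Γ : Grp V R) : Type _ :=
  N1 𝒜 Γ (LinearMap.id : V →ₗ[ℂ] V)

/-- The nef cone of `X`. -/
def nef {V R : Type*} [NormedAddCommGroup V] [NormedSpace ℂ V] [CommRing R] [Algebra ℂ R] {ρ : ℕ}
    (𝒜 : Cl ρ → Submodule ℂ R) (Γ : Grp V R) (u : Cl ρ) : Set (NS 𝒜 Γ) :=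
  nefCone 𝒜 Γ LinearMap.id u

/-- `x` is the class of the sheaf `𝓛` in `N^1(X)`. -/
def HasClass {V R : Type*} [NormedAddCommGroup V] [NormedSpace ℂ V] [CommRing R] [Algebra ℂ R]
    {ρ : ℕ} {𝒜 : Cl ρ → Submodule ℂ R} {Γ : Grp V R} (𝓛 : Sheaf 𝒜 Γ) (x : NS 𝒜 Γ) : Prop :=
  IsClass LinearMap.id 𝓛 (val x)

/-- The class `β` of `F` is the pullback of an ample `ℚ`-divisor by a fibration, and `K` is the pullback
of a `ℚ`-divisor by the same fibration. -/
def FibreSpaceF {R : Type*} [CommRing R] [Algebra ℂ R] {ρ : ℕ} (𝒜 : Cl ρ → Submodule ℂ R)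
    (u β K : Cl ρ) : Prop :=
  SemiampleF 𝒜 u β ∧ ∃ k : ℕ, SemiampleF 𝒜 u (k • β + K) ∧ SemiampleF 𝒜 u (k • β - K)

/-- The sheaf `𝓛` on `X` is, up to a power, the pullback of an ample line bundle by a fibration, and `𝓜`
is, up to a power, the pullback of a line bundle by the same fibration. -/
def FibreSpaceX {V R : Type*} [NormedAddCommGroup V] [NormedSpace ℂ V] [CommRing R] [Algebra ℂ R]
    {ρ : ℕ} {𝒜 : Cl ρ → Submodule ℂ R} {Γ : Grp V R} (u : Cl ρ) (𝓛 𝓜 : Sheaf 𝒜 Γ) : Prop :=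
  𝓛.IsSemiample u ∧ ∃ k : ℕ, ((𝓛.pow k).tensor 𝓜).IsSemiample u ∧
    ((𝓛.pow k).tensor 𝓜.dual).IsSemiample u

/-- The statement of the problem for `F i / G i` and for the component `K i` of the class `K`: if `K i`
is nef and `β` is a class of `F i` which is invariant under `G i` and such that `β - ε K i` is nef for
`0 ≤ ε ≤ ε₀`, then `β` and `K i` are pullbacks of an ample `ℚ`-divisor and of a `ℚ`-divisor by a fibration. -/
def StatementAt {V R κ : Type*} [NormedAddCommGroup V] [NormedSpace ℂ V] [CommRing R]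
    [Algebra ℂ R] [DecidableEq κ] {ρ : ℕ} (𝒜 : Cl ρ → Submodule ℂ R) (u : Cl ρ) (c : Fin ρ → κ)
    (Γ : Grp V R) (K : Cl ρ) (i : κ) : Prop :=
  ∀ β, IsOf c i β → InvAt 𝒜 c Γ i β → real (part c i K) ∈ nefF 𝒜 u c i →
    (∃ ε₀ : ℝ, 0 < ε₀ ∧ ∀ ε : ℝ, 0 ≤ ε → ε ≤ ε₀ →
      real β - ε • real (part c i K) ∈ nefF 𝒜 u c i) →
    FibreSpaceF 𝒜 u β (part c i K)

/-- Let `X = (V × F) / Γ` be a quotient with `H^1(X, O_X) = 0` such that `Γ` permutes the factors `F i`.
Let `𝓜` be a nef sheaf on `X` (a multiple of `K_X + Δ`), and let the statement of the problem hold for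
the components of its degree and the invariant classes of the `F i`. If `𝓛` is a sheaf on `X` such that
the classes `[𝓛] - ε [𝓜]` are nef for `0 ≤ ε ≤ ε₀`, then `𝓛` and `𝓜` are, up to powers, the pullbacks of an
ample line bundle and of a line bundle by a fibration. -/
theorem result {V R κ : Type*} [NormedAddCommGroup V] [NormedSpace ℂ V] [FiniteDimensional ℂ V]
    [CommRing R] [IsDomain R] [Algebra ℂ R] [DecidableEq κ] [Fintype κ] {ρ : ℕ}
    (𝒜 : Cl ρ → Submodule ℂ R) [GradedAlgebra 𝒜] (u : Cl ρ) (hF : IsCoxRing 𝒜 u)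
    (c : Fin ρ → κ) (hprod : IsProduct 𝒜 c)
    (Γ : Grp V R) (hX : IsQuotient 𝒜 u Γ) (hperm : Permutes 𝒜 c Γ) (h01 : HOneZero (base Γ))
    (𝓜 : Sheaf 𝒜 Γ) (y : NS 𝒜 Γ) (hy : HasClass 𝓜 y) (hny : y ∈ nef 𝒜 Γ u)
    (hfac : ∀ i, StatementAt 𝒜 u c Γ 𝓜.deg i)
    (𝓛 : Sheaf 𝒜 Γ) (x : NS 𝒜 Γ) (hx : HasClass 𝓛 x)
    (hnx : ∃ ε₀ : ℝ, 0 < ε₀ ∧ ∀ ε : ℝ, 0 ≤ ε → ε ≤ ε₀ → x - ε • y ∈ nef 𝒜 Γ u) :
    FibreSpaceX u 𝓛 𝓜 := by
  obtain ⟨ε₀, hε₀, hnx⟩ := hnx
  obtain ⟨⟨HL, hHL, hL1⟩, hL2⟩ := hx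
  obtain ⟨⟨HM, hHM, hM1⟩, hM2⟩ := hy
  have hL2' : (val x).2 = real 𝓛.deg := funext hL2
  have hM2' : (val y).2 = real 𝓜.deg := funext hM2
  have hpart : ∀ i (β : Cl ρ), Pool.Agent.X324.CG.partR c i (real β) = real (part c i β) :=
    fun i β => Pool.Agent.X324.CG.partR_rv c i β
  -- forms and degrees
  have hM := Pool.Agent.X324.SA.nef_sub hF hX hny
  have hLM : ∀ ε : ℝ, 0 ≤ ε → ε ≤ ε₀ → (∀ v, 0 ≤ (HL v v).re - ε * (HM v v).re) ∧
      ∀ i, real (part c i 𝓛.deg) - ε • real (part c i 𝓜.deg) ∈ nefF 𝒜 u c i := by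
    intro ε h0 h1
    obtain ⟨h2, h3⟩ := Pool.Agent.X324.SA.nef_sub hF hX (hnx ε h0 h1)
    refine ⟨fun v => ?_, fun i => ?_⟩
    · have h4 := h2 v
      have h5 : (val (x - ε • y)).1 v v = (val x).1 v v - ε • (val y).1 v v := rfl
      rw [h5, hL1, hM1, Complex.sub_re, Complex.smul_re] at h4
      exact h4
    · have h4 := Pool.Agent.X324.SA.part_nef (u := u) hprod i h3
      have h5 : (val (x - ε • y)).2 = (val x).2 - ε • (val y).2 := rfl
      rw [h5, hL2', hM2', map_sub, map_smul, hpart, hpart] at h4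
      exact h4
  have hMv : ∀ v, 0 ≤ (HM v v).re := by
    intro v
    have h1 := hM.1 v
    rw [hM1] at h1
    exact h1
  have hLv : ∀ v, 0 ≤ (HL v v).re := by
    intro v
    have h1 := (hLM 0 le_rfl hε₀.le).1 v
    rwa [zero_mul, sub_zero] at h1
  -- the factors
  have key : ∀ i, FibreSpaceF 𝒜 u (part c i 𝓛.deg) (part c i 𝓜.deg) := by
    intro i
    refine hfac i _ (Pool.Agent.X324.CG.part_BL i _) (Pool.Agent.X324.SA.part_inv hperm 𝓛.inv i) ?_
      ⟨ε₀, hε₀, fun ε h0 h1 => (hLM ε h0 h1).2 i⟩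
    have h3 := Pool.Agent.X324.SA.part_nef (u := u) hprod i hM.2
    rwa [hM2', hpart] at h3
  choose hs k hk using key
  obtain ⟨m, hm⟩ := exists_nat_ge (1 / ε₀)
  set K : ℕ := m + ∑ i, k i with hK
  have hki : ∀ i, k i ≤ K := fun i =>
    (Finset.single_le_sum (f := k) (fun _ _ => Nat.zero_le _) (Finset.mem_univ i)).trans
      (Nat.le_add_left _ _)
  have hKε : 1 / ε₀ ≤ (K : ℝ) := hm.trans (by exact_mod_cast Nat.le_add_right _ _)
  have hre : ∀ v, ((K : ℂ) * HL v v).re = (K : ℝ) * (HL v v).re := by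
    intro v
    have e1 : (K : ℂ) = ((K : ℝ) : ℂ) := by push_cast; rfl
    rw [e1, Complex.re_ofReal_mul]
  have hadd : ∀ (i : κ) (b : Cl ρ), part c i (K • 𝓛.deg + b) =
      (K - k i) • part c i 𝓛.deg + (k i • part c i 𝓛.deg + part c i b) := by
    intro i b
    have h1 : part c i (K • 𝓛.deg + b) = K • part c i 𝓛.deg + part c i b := by
      rw [← Pool.Agent.X324.CG.partH_apply, map_add, map_nsmul]
      rfl
    rw [h1, ← add_assoc, ← add_smul, Nat.sub_add_cancel (hki i)]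
  have hneg : ∀ i, part c i (-𝓜.deg) = -part c i 𝓜.deg := by
    intro i
    rw [← Pool.Agent.X324.CG.partH_apply, map_neg]
    rfl
  refine ⟨?_, K, ?_, ?_⟩
  · exact Pool.Agent.X324.SA.semiample_of_nef hX h01 hHL hLv
      (Pool.Agent.X324.SA.semi_of_parts (c := c) hs)
  · refine Pool.Agent.X324.SA.semiample_of_nef hX h01
      (Sheaf.chern_tensor (Sheaf.chern_pow hHL K) hHM) (fun v => ?_)
      (Pool.Agent.X324.SA.semi_of_parts (c := c) fun i => ?_)
    · rw [Complex.add_re, hre]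
      have h1 : (0 : ℝ) ≤ K := Nat.cast_nonneg _
      have h2 := hMv v
      have h3 := hLv v
      positivity
    · change SemiampleF 𝒜 u (part c i (K • 𝓛.deg + 𝓜.deg))
      rw [hadd]
      exact ((hs i).nsmul _).add (hk i).1
  · refine Pool.Agent.X324.SA.semiample_of_nef hX h01
      (Sheaf.chern_tensor (Sheaf.chern_pow hHL K) (Sheaf.chern_dual hHM)) (fun v => ?_)
      (Pool.Agent.X324.SA.semi_of_parts (c := c) fun i => ?_)
    · rw [Complex.add_re, hre, Complex.neg_re]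
      have h1 := (hLM ε₀ hε₀.le le_rfl).1 v
      have h2 := hLv v
      have h3 : 1 / ε₀ * (HL v v).re ≤ (K : ℝ) * (HL v v).re := mul_le_mul_of_nonneg_right hKε h2
      have h4 : (HM v v).re ≤ 1 / ε₀ * (HL v v).re := by
        rw [one_div, inv_mul_eq_div, le_div_iff₀ hε₀]
        linarith
      linarith
    · change SemiampleF 𝒜 u (part c i (K • 𝓛.deg + -𝓜.deg))
      rw [hadd, hneg, ← sub_eq_add_neg (k i • part c i 𝓛.deg)]
      exact ((hs i).nsmul _).add (hk i).2

end Pool.Agent.Results.MP_837b5f_ag.ProductQuotients
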